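import Mathlib
import Pool.Agent.Work.MP_38c61c_al.DG.GenK
import Pool.Agent.Work.MP_38c61c_al.DG.InjSmall
import Pool.Agent.Work.MP_38c61c_al.DG.InjCyc
import Pool.Agent.Work.MP_38c61c_al.DG.MainCore

/-!
Lefschetz multiplications, by the powers of the sum of the variables and for generic antisymmetric
linear forms, for centrally symmetric `ZMod 2`-homology spheres of any dimension: injectivity (and
surjectivity in the dual degrees) for all of them from degree zero and whenever the target has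
degree at most three, in the other degrees under conditions on the invariant cross-polytopes. In
particular the weak Lefschetz property in all dimensions at most five, and the strong Lefschetz
property in dimension three and for spheres without an invariant octahedron.
-/

namespace Pool.Agent.Results.MP_38c61c_al.LowDimensionWLP

open MvPolynomial

variable {V : Type} [Fintype V] [DecidableEq V]

/-- The value at `H` of the boundary modulo 2 of the chain `c` of faces of `Δ`:
the sum of the values of `c` over all faces `H ∪ {v}` of `Δ` with `v ∉ H`. -/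
def bdry (Δ : Finset (Finset V)) (c : Finset V → ZMod 2) (H : Finset V) : ZMod 2 :=
  ∑ v ∈ Finset.univ.filter (fun v => v ∉ H ∧ insert v H ∈ Δ), c (insert v H)

/-- `Δ` is a simplicial complex on the vertex set `V`, with faces of at most `d` vertices, such
that the link of each face `G` (the empty one included) has the reduced homology modulo 2 of a
sphere of dimension `d - 1 - |G|`. (The faces of the link of `G` are here written as the faces
of `Δ` that contain `G`.) -/
structure HomologySphere (Δ : Finset (Finset V)) (d : ℕ) : Prop where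
  empty_mem : ∅ ∈ Δ
  down : ∀ F ∈ Δ, ∀ G, G ⊆ F → G ∈ Δ
  card_le : ∀ F ∈ Δ, F.card ≤ d
  acyclic : ∀ G ∈ Δ, ∀ r, G.card ≤ r → r < d → ∀ c : Finset V → ZMod 2,
    (∀ H ∈ Δ, G ⊆ H → H.card + 1 = r → bdry Δ c H = 0) →
    ∃ b : Finset V → ZMod 2, ∀ F ∈ Δ, G ⊆ F → F.card = r → bdry Δ b F = c F
  top : ∀ G ∈ Δ, ∀ c : Finset V → ZMod 2,
    (∀ H ∈ Δ, G ⊆ H → H.card + 1 = d → bdry Δ c H = 0) ↔
    ∃ z, ∀ F ∈ Δ, G ⊆ F → F.card = d → c F = z

/-- `α` is a fixed-point-free involution of the vertex set that maps `Δ` to itself and has no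
vertex in a common face with its image. -/
structure CentrallySymmetric (Δ : Finset (Finset V)) (α : Equiv.Perm V) : Prop where
  invol : ∀ v, α (α v) = v
  fpf : ∀ v, α v ≠ v
  map_mem : ∀ F ∈ Δ, F.image α ∈ Δ
  no_pair : ∀ F ∈ Δ, ∀ v ∈ F, α v ∉ F

/-- `P` is the vertex set of an invariant cross-polytope: `α` maps `P` to itself, and every subset
of `P` that contains exactly one vertex of each pair `v, α v` of `P` is a face of `Δ`. -/
def IsCross (Δ : Finset (Finset V)) (α : Equiv.Perm V) (P : Finset V) : Prop :=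
  (∀ v ∈ P, α v ∈ P) ∧ ∀ F ⊆ P, (∀ v ∈ P, v ∈ F ↔ α v ∉ F) → F ∈ Δ

/-- There is no invariant cross-polytope with `m` pairs of vertices. -/
def CrossFree (Δ : Finset (Finset V)) (α : Equiv.Perm V) (m : ℕ) : Prop :=
  ¬ ∃ P, IsCross Δ α P ∧ P.card = 2 * m

/-- There is no nonempty family of invariant cross-polytopes with `m` pairs of vertices such that
every invariant set of `m - 1` pairs is contained in an even number of members of the family. -/
def CrossAcyclic (Δ : Finset (Finset V)) (α : Equiv.Perm V) (m : ℕ) : Prop :=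
  ∀ S : Finset (Finset V), (∀ P ∈ S, IsCross Δ α P ∧ P.card = 2 * m) →
    (∀ Q : Finset V, (∀ v ∈ Q, α v ∈ Q) → Q.card + 2 = 2 * m →
      Even (S.filter (fun P => Q ⊆ P)).card) → S = ∅

variable {k : Type*} [Field k]

/-- The sum of the Stanley-Reisner ideal of `Δ` and of the ideal generated by the linear forms
`θ_l`, the sum over `v` of `A l v` times the variable `x_v`. -/
noncomputable def quotIdeal {d : ℕ} (Δ : Finset (Finset V)) (A : Fin d → V → k) :
    Ideal (MvPolynomial V k) :=
  Ideal.span {f | ∃ G : Finset V, G ∉ Δ ∧ f = ∏ v ∈ G, X v} ⊔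
    Ideal.span (Set.range (fun l : Fin d => ∑ v, C (A l v) * X v))

/-- The homogeneous part of degree `n` of the quotient by the ideal `J`. -/
noncomputable def piece (J : Ideal (MvPolynomial V k)) (n : ℕ) :
    Submodule k (MvPolynomial V k ⧸ J) :=
  (homogeneousSubmodule V k n).map (Ideal.Quotient.mkₐ k J).toLinearMap

/-- Multiplication by the power `w ^ K` is injective from degree `i` to degree `i + K` of the
quotient by `J`. -/
def InjectiveAt (J : Ideal (MvPolynomial V k)) (w : MvPolynomial V k) (i K : ℕ) : Prop :=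
  ∀ x ∈ piece J i, Ideal.Quotient.mk J w ^ K * x = 0 → x = 0

/-- Multiplication by the power `w ^ K` is surjective from degree `i` to degree `i + K` of the
quotient by `J`. -/
def SurjectiveAt (J : Ideal (MvPolynomial V k)) (w : MvPolynomial V k) (i K : ℕ) : Prop :=
  ∀ y ∈ piece J (i + K), ∃ x ∈ piece J i, Ideal.Quotient.mk J w ^ K * x = y

/-- The quotient by `J` has the weak Lefschetz property with respect to `w`. -/
def HasWLP (J : Ideal (MvPolynomial V k)) (w : MvPolynomial V k) : Prop :=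
  ∀ i : ℕ, InjectiveAt J w i 1 ∨ SurjectiveAt J w i 1

/-- The quotient by `J` has the strong Lefschetz property with respect to `w`. -/
def HasSLP (J : Ideal (MvPolynomial V k)) (w : MvPolynomial V k) : Prop :=
  ∀ i K : ℕ, 1 ≤ K → InjectiveAt J w i K ∨ SurjectiveAt J w i K

omit [Fintype V] in
theorem exists_half {Δ : Finset (Finset V)} {α : Equiv.Perm V} [Finite V]
    (hα : CentrallySymmetric Δ α) : ∃ VP : Finset V, ∀ v, v ∈ VP ↔ α v ∉ VP := by
  classical
  have : Fintype V := Fintype.ofFinite V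
  let r : V → V → Prop := WellOrderingRel
  refine ⟨Finset.univ.filter (fun v => r v (α v)), ?_⟩
  intro v
  simp only [Finset.mem_filter, Finset.mem_univ, true_and]
  rw [hα.invol]
  constructor
  · intro h h'
    exact asymm (r := r) h h'
  · intro h
    rcases trichotomous_of r v (α v) with h1 | h1 | h1
    · exact h1
    · exact absurd h1.symm (hα.fpf v)
    · exact absurd h1 h

theorem quotIdeal_eq {d : ℕ} (Δ : Finset (Finset V)) (A : Fin d → V → k) :
    quotIdeal Δ A = CSLef.Jid Δ (CSLef.rowN A) d := by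
  unfold quotIdeal CSLef.Jid CSLef.srIdeal
  congr 2
  ext f
  constructor
  · rintro ⟨l, rfl⟩
    refine ⟨l, l.2, ?_⟩
    unfold CSLef.lin CSLef.rowN
    simp only [dif_pos l.2]
  · rintro ⟨l, hl, rfl⟩
    refine ⟨⟨l, hl⟩, ?_⟩
    unfold CSLef.lin CSLef.rowN
    simp only [dif_pos hl]

section cross

variable {Δ : Finset (Finset V)} {α : Equiv.Perm V} {VP : Finset V}

omit [Fintype V] in
theorem mem_flip' (G T : Finset V) (x : V) :
    x ∈ CSLef.flip α G T ↔ (x ∈ G ∧ x ∉ T) ∨ ∃ t ∈ T, α t = x := by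
  simp [CSLef.flip]

omit [Fintype V] in
/-- a set all of whose flips are faces gives an invariant cross-polytope -/
theorem cross_of_flips (hα : CentrallySymmetric Δ α) {H : Finset V}
    (h : ∀ T ⊆ H, CSLef.flip α H T ∈ Δ) :
    IsCross Δ α (H ∪ H.image α) ∧ (H ∪ H.image α).card = 2 * H.card := by
  have hH : H ∈ Δ := by
    have h1 := h ∅ (Finset.empty_subset H)
    simpa [CSLef.flip] using h1
  have hnp : ∀ v ∈ H, α v ∉ H := hα.no_pair H hH
  refine ⟨⟨?_, ?_⟩, ?_⟩
  · intro v hv
    rcases Finset.mem_union.mp hv with h1 | h1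
    · exact Finset.mem_union_right _ (Finset.mem_image_of_mem α h1)
    · obtain ⟨u, hu, rfl⟩ := Finset.mem_image.mp h1
      rw [hα.invol]
      exact Finset.mem_union_left _ hu
  · intro F hF hsec
    have h1 : F = CSLef.flip α H (H.filter (fun v => α v ∈ F)) := by
      ext x
      rw [mem_flip']
      constructor
      · intro hx
        rcases Finset.mem_union.mp (hF hx) with h2 | h2
        · left
          refine ⟨h2, fun h3 => ?_⟩
          exact (hsec x (hF hx)).mp hx (Finset.mem_filter.mp h3).2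
        · right
          obtain ⟨u, hu, rfl⟩ := Finset.mem_image.mp h2
          exact ⟨u, Finset.mem_filter.mpr ⟨hu, hx⟩, rfl⟩
      · rintro (⟨h2, h3⟩ | ⟨t, ht, rfl⟩)
        · rw [hsec x (Finset.mem_union_left _ h2)]
          exact fun h4 => h3 (Finset.mem_filter.mpr ⟨h2, h4⟩)
        · exact (Finset.mem_filter.mp ht).2
    rw [h1]
    exact h _ (Finset.filter_subset _ _)
  · rw [Finset.card_union_of_disjoint, Finset.card_image_of_injective _ α.injective]
    · ring
    · rw [Finset.disjoint_left]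
      intro v hv hv2
      obtain ⟨u, hu, rfl⟩ := Finset.mem_image.mp hv2
      exact hnp u hu hv

omit [Fintype V] in
/-- invariant sets and their parts in the half `VP` -/
theorem inv_eq (hα : CentrallySymmetric Δ α) (hvp : ∀ v, v ∈ VP ↔ α v ∉ VP) {P : Finset V}
    (hP : ∀ v ∈ P, α v ∈ P) :
    P = (P ∩ VP) ∪ (P ∩ VP).image α ∧ P.card = 2 * (P ∩ VP).card := by
  have h1 : P = (P ∩ VP) ∪ (P ∩ VP).image α := by
    ext x
    rw [Finset.mem_union, Finset.mem_image, Finset.mem_inter]
    constructor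
    · intro hx
      by_cases h : x ∈ VP
      · exact Or.inl ⟨hx, h⟩
      · right
        refine ⟨α x, Finset.mem_inter.mpr ⟨hP x hx, ?_⟩, hα.invol x⟩
        by_contra h2
        exact h ((hvp x).mpr h2)
    · rintro (h | ⟨u, hu, rfl⟩)
      · exact h.1
      · exact hP u (Finset.mem_inter.mp hu).1
  refine ⟨h1, ?_⟩
  have h2 : Disjoint (P ∩ VP) ((P ∩ VP).image α) := by
    rw [Finset.disjoint_left]
    intro v hv hv2
    obtain ⟨u, hu, rfl⟩ := Finset.mem_image.mp hv2
    exact (hvp u).mp (Finset.mem_inter.mp hu).2 (Finset.mem_inter.mp hv).2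
  conv_lhs => rw [h1]
  rw [Finset.card_union_of_disjoint h2, Finset.card_image_of_injective _ α.injective]
  ring

omit [Fintype V] in
/-- no nonzero cycle of invariant cross-polytopes, in terms of the helper files -/
theorem noCyc_of (hα : CentrallySymmetric Δ α) (hvp : ∀ v, v ∈ VP ↔ α v ∉ VP) {m : ℕ}
    (h : CrossAcyclic Δ α m) : CSLef.DG.NoCyc Δ α VP m := by
  intro 𝒢 h𝒢 hev
  have hpart : ∀ G ∈ 𝒢, (G ∪ G.image α) ∩ VP = G := by
    intro G hG
    ext x
    rw [Finset.mem_inter, Finset.mem_union, Finset.mem_image]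
    constructor
    · rintro ⟨h1 | ⟨u, hu, rfl⟩, h2⟩
      · exact h1
      · exact absurd h2 ((hvp u).mp ((h𝒢 G hG).1 hu))
    · intro hx
      exact ⟨Or.inl hx, (h𝒢 G hG).1 hx⟩
  have hinj : Set.InjOn (fun G : Finset V => G ∪ G.image α) (↑𝒢 : Set (Finset V)) := by
    intro G hG G' hG' heq
    rw [← hpart G hG, ← hpart G' hG']
    simp only at heq
    rw [heq]
  have h1 := h (𝒢.image (fun G => G ∪ G.image α)) ?_ ?_
  · exact Finset.image_eq_empty.mp h1
  · intro P hP
    obtain ⟨G, hG, rfl⟩ := Finset.mem_image.mp hP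
    obtain ⟨h2, h3, h4⟩ := h𝒢 G hG
    obtain ⟨h5, h6⟩ := cross_of_flips hα h4
    exact ⟨h5, by rw [h6, h3]⟩
  · intro Q hQ hQc
    obtain ⟨h2, h3⟩ := inv_eq hα hvp hQ
    have h4 := hev (Q ∩ VP) Finset.inter_subset_right (by omega)
    have h5 : (𝒢.image (fun G => G ∪ G.image α)).filter (fun P => Q ⊆ P) =
        (𝒢.filter (fun G => Q ∩ VP ⊆ G)).image (fun G => G ∪ G.image α) := by
      ext P
      rw [Finset.mem_filter, Finset.mem_image, Finset.mem_image]
      constructor
      · rintro ⟨⟨G, hG, rfl⟩, h6⟩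
        refine ⟨G, Finset.mem_filter.mpr ⟨hG, ?_⟩, rfl⟩
        have h7 := Finset.inter_subset_inter_right (u := VP) h6
        rwa [hpart G hG] at h7
      · rintro ⟨G, hG, rfl⟩
        obtain ⟨h6, h7⟩ := Finset.mem_filter.mp hG
        refine ⟨⟨G, h6, rfl⟩, ?_⟩
        rw [h2]
        exact Finset.union_subset_union h7 (Finset.image_subset_image h7)
    rw [h5, Finset.card_image_of_injOn
      (hinj.mono (Finset.coe_subset.mpr (Finset.filter_subset _ _)))]
    exact h4

omit [Fintype V] in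
/-- an invariant cross-polytope gives full sets with at most its number of pairs -/
theorem full_of_cross (hα : CentrallySymmetric Δ α) (hvp : ∀ v, v ∈ VP ↔ α v ∉ VP)
    (hdown : ∀ F ∈ Δ, ∀ G, G ⊆ F → G ∈ Δ) {m m' : ℕ} (hm : m' ≤ m)
    (h : ¬ CrossFree Δ α m) : ∃ G ⊆ VP, G.card = m' ∧ ∀ T ⊆ G, CSLef.flip α G T ∈ Δ := by
  unfold CrossFree at h
  rw [not_not] at h
  obtain ⟨P, ⟨h1, h2⟩, h3⟩ := h
  obtain ⟨h4, h5⟩ := inv_eq hα hvp h1
  obtain ⟨G, hG, hGc⟩ := Finset.exists_subset_card_eq (s := P ∩ VP) (n := m') (by omega)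
  refine ⟨G, hG.trans Finset.inter_subset_right, hGc, fun T hT => ?_⟩
  have h6 : CSLef.flip α (P ∩ VP) T ∈ Δ := by
    apply h2
    · intro x hx
      rcases (mem_flip' _ _ _).mp hx with h7 | ⟨t, ht, rfl⟩
      · exact (Finset.mem_inter.mp h7.1).1
      · exact h1 t (Finset.mem_inter.mp (hG (hT ht))).1
    · intro v hv
      rw [mem_flip', mem_flip']
      constructor
      · rintro (⟨h7, h8⟩ | ⟨t, ht, rfl⟩)
        · rintro (⟨h9, h10⟩ | ⟨t, ht, h9⟩)
          · exact (hvp v).mp (Finset.mem_inter.mp h7).2 (Finset.mem_inter.mp h9).2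
          · exact h8 (by rwa [← α.injective h9])
        · rw [hα.invol]
          rintro (⟨h9, h10⟩ | ⟨t', ht', h9⟩)
          · exact h10 ht
          · have h11 := (Finset.mem_inter.mp (hG (hT ht))).2
            rw [← h9] at h11
            exact (hvp t').mp (Finset.mem_inter.mp (hG (hT ht'))).2 h11
      · intro h7
        by_cases hv2 : v ∈ VP
        · left
          refine ⟨Finset.mem_inter.mpr ⟨hv, hv2⟩, fun h8 => h7 (Or.inr ⟨v, h8, rfl⟩)⟩
        · right
          have h8 : α v ∈ VP := by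
            by_contra h9
            exact hv2 ((hvp v).mpr h9)
          refine ⟨α v, ?_, hα.invol v⟩
          by_contra h9
          exact h7 (Or.inl ⟨Finset.mem_inter.mpr ⟨h1 v hv, h8⟩, h9⟩)
  refine hdown _ h6 _ ?_
  intro x hx
  rw [mem_flip'] at hx ⊢
  rcases hx with ⟨h7, h8⟩ | h7
  · exact Or.inl ⟨hG h7, h8⟩
  · exact Or.inr h7

omit [Fintype V] in
/-- fewer pairs -/
theorem crossFree_mono (hΔ : ∀ F ∈ Δ, ∀ G, G ⊆ F → G ∈ Δ) (hα : CentrallySymmetric Δ α)
    (hvp : ∀ v, v ∈ VP ↔ α v ∉ VP) {m m' : ℕ} (hm : m' ≤ m) (h : CrossFree Δ α m') :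
    CrossFree Δ α m := by
  by_contra hcon
  obtain ⟨G, _, hGc, hG⟩ := full_of_cross hα hvp hΔ hm hcon
  apply h
  obtain ⟨h1, h2⟩ := cross_of_flips hα hG
  exact ⟨_, h1, by rw [h2, hGc]⟩

omit [Fintype V] in
/-- the boundary of a cross-polytope with more pairs is a cycle -/
theorem crossFree_of_acyclic (hΔ : ∀ F ∈ Δ, ∀ G, G ⊆ F → G ∈ Δ) (hα : CentrallySymmetric Δ α)
    (hvp : ∀ v, v ∈ VP ↔ α v ∉ VP) {m m' : ℕ} (hm1 : 1 ≤ m) (hm : m < m')
    (h : CrossAcyclic Δ α m) : CrossFree Δ α m' := by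
  by_contra hcon
  obtain ⟨G, hGV, hGc, hG⟩ := full_of_cross hα hvp hΔ (m' := m + 1) (by omega) hcon
  obtain ⟨T, hT, hT2⟩ := CSLef.DG.IInjCyc.no_larger_of_noCyc hΔ (noCyc_of hα hvp h) hm1 hGV hGc
  exact hT2 (hG T hT)

end cross

/-- the pairs of a degree and a power in the main theorem -/
def Good (Δ : Finset (Finset V)) (α : Equiv.Perm V) (d i K : ℕ) : Prop :=
  i = 0 ∨ i + K ≤ 3 ∨ CrossFree Δ α (d + 3 - 2 * i - K) ∨
    (K = 1 ∧ CrossAcyclic Δ α (d + 2 - 2 * i))

/-- the main theorem for all `d`, in terms of the helper files -/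
theorem main_all {d : ℕ} (hd : 1 ≤ d) {Δ : Finset (Finset V)} {α : Equiv.Perm V}
    {VP : Finset V} (hΔ : CSLef.IsHomSphere Δ d) (hα : CentrallySymmetric Δ α)
    (hvp : ∀ v, v ∈ VP ↔ α v ∉ VP) [CharZero k] (N : Finset (ℕ × ℕ))
    (hN : ∀ q ∈ N, 1 ≤ q.2 ∧ 2 * q.1 + q.2 ≤ d ∧ Good Δ α d q.1 q.2) :
    CSLef.DG.ConclK Δ α d N k := by
  have hα' : CSLef.IsCS Δ α := ⟨hα.invol, hα.fpf, hα.map_mem, hα.no_pair⟩
  rcases Nat.lt_or_ge d 4 with h | h
  · exact CSLef.DG.lowK_le_three hd (by omega) hΔ hα' hvp N (fun q hq => (hN q hq).2.1)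
  · rcases Nat.lt_or_ge 4 d with h' | h'
    · obtain ⟨ee, rfl⟩ : ∃ ee, d = ee + 4 := ⟨d - 4, by omega⟩
      have he : 1 ≤ ee := by omega
      have hG : CSLef.DG.HG ee Δ α VP := ⟨hΔ, hα', hvp⟩
      apply CSLef.DG.conclK_of_injK hG N
      rintro ⟨i, K⟩ hq
      obtain ⟨h1, h2, h3⟩ := hN _ hq
      simp only at h1 h2 h3 ⊢
      refine ⟨h1, by omega, ?_⟩
      have hsmall : i + K ≤ 3 → CSLef.DG.InjK ee Δ α VP i K := fun h4 =>
        CSLef.DG.injK_small he hG (fun D hC => CSLef.DG.core_of_ctx D hC) K i h1 h4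
      rcases h3 with h3 | h3 | h3 | ⟨h3, h4⟩
      · subst h3
        exact CSLef.DG.injK_zero he hG (by omega)
      · exact hsmall h3
      · obtain ⟨K', rfl⟩ : ∃ K', K = K' + 1 := ⟨K - 1, by omega⟩
        refine CSLef.DG.injK_main he hG (n := ee + 4 - 2 * i - K') (by omega) (by omega) ?_
        intro H hH
        by_contra hcon
        push Not at hcon
        apply h3
        obtain ⟨h5, h6⟩ := cross_of_flips hα hcon
        exact ⟨_, h5, by rw [h6]; omega⟩
      · subst h3
        rcases Nat.lt_or_ge 2 i with h5 | h5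
        · refine CSLef.DG.injK_cyc he hG (by omega) (by omega) ?_
          have h6 := noCyc_of hα hvp h4
          rwa [show ee + 4 + 2 - 2 * i = ee + 6 - 2 * i by omega] at h6
        · exact hsmall (by omega)
    · obtain rfl : d = 4 := by omega
      exact CSLef.DG.lowK_four hΔ hα' hvp N (fun q hq => (hN q hq).2.1)

/-- Let `Δ` be a centrally symmetric homology sphere modulo 2 of dimension `d - 1`. Then over
every field of characteristic zero, for generic antisymmetric linear forms `θ_1, …, θ_d`, the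
quotient of the Stanley-Reisner ring is zero in degrees above `d`; for all `i` and all `K ≥ 1` with
`2 i + K ≤ d` such that `i = 0`, or `i + K ≤ 3`, or `Δ` has no invariant cross-polytope with
`d + 3 - 2 i - K` pairs, or `K = 1` and there is no nonzero cycle modulo 2 of invariant
cross-polytopes with `d + 2 - 2 i` pairs, multiplication by the power `K` of the sum of the
variables is injective from degree `i` to degree `i + K` and surjective from degree `d - i - K` to
degree `d - i`. In particular the quotient has the weak Lefschetz property if `d ≤ 6` or if there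
is no nonzero cycle modulo 2 of invariant octahedra (`d` odd) or of invariant cross-polytopes with
4 pairs (`d` even), it has the strong Lefschetz property if `d ≤ 4` or if there is no invariant
octahedron, and if there is no invariant cross-polytope with 4 pairs, all multiplications by powers
of the sum of the variables, except perhaps those between dual degrees `i` and `d - i`, are
injective or surjective. -/
theorem result {d : ℕ} (hd : 1 ≤ d) {Δ : Finset (Finset V)} {α : Equiv.Perm V}
    (hΔ : HomologySphere Δ d) (hα : CentrallySymmetric Δ α) [CharZero k] :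
    ∃ Φ : MvPolynomial (Fin d × V) k,
      (∃ A : Fin d → V → k, (∀ l v, A l (α v) = - A l v) ∧
        eval (fun q : Fin d × V => A q.1 q.2) Φ ≠ 0) ∧
      ∀ A : Fin d → V → k, (∀ l v, A l (α v) = - A l v) →
        eval (fun q : Fin d × V => A q.1 q.2) Φ ≠ 0 →
        (∀ n, d < n → piece (quotIdeal Δ A) n = ⊥) ∧
        (∀ i K, 1 ≤ K → 2 * i + K ≤ d →
          (i = 0 ∨ i + K ≤ 3 ∨ CrossFree Δ α (d + 3 - 2 * i - K) ∨
            (K = 1 ∧ CrossAcyclic Δ α (d + 2 - 2 * i))) →
          InjectiveAt (quotIdeal Δ A) (∑ v, X v) i K ∧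
          SurjectiveAt (quotIdeal Δ A) (∑ v, X v) (d - i - K) K) ∧
        ((d ≤ 6 ∨ (Odd d ∧ CrossAcyclic Δ α 3) ∨ (Even d ∧ CrossAcyclic Δ α 4)) →
          HasWLP (quotIdeal Δ A) (∑ v, X v)) ∧
        ((d ≤ 4 ∨ CrossFree Δ α 3) → HasSLP (quotIdeal Δ A) (∑ v, X v)) ∧
        (CrossFree Δ α 4 → ∀ i K, 1 ≤ K → 2 * i + K ≠ d →
          InjectiveAt (quotIdeal Δ A) (∑ v, X v) i K ∨
          SurjectiveAt (quotIdeal Δ A) (∑ v, X v) i K) := by
  classical
  have hΔ' : CSLef.IsHomSphere Δ d :=
    ⟨hΔ.empty_mem, hΔ.down, hΔ.card_le, hΔ.acyclic, hΔ.top⟩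
  obtain ⟨VP, hvp⟩ := exists_half hα
  obtain ⟨Φ, hΦ1, hΦ2⟩ := main_all (k := k) hd hΔ' hα hvp
    ((Finset.range (d + 1) ×ˢ Finset.range (d + 1)).filter
      (fun q => 1 ≤ q.2 ∧ 2 * q.1 + q.2 ≤ d ∧ Good Δ α d q.1 q.2))
    (fun q hq => (Finset.mem_filter.mp hq).2)
  refine ⟨Φ, hΦ1, ?_⟩
  intro A hA hne
  obtain ⟨h1, h2⟩ := hΦ2 A hA hne
  rw [quotIdeal_eq]
  have hzero : ∀ n, d < n → piece (CSLef.Jid Δ (CSLef.rowN A) d) n = ⊥ := by
    intro n hn
    rw [eq_bot_iff]
    intro x hx
    obtain ⟨f, hf, rfl⟩ := CSLef.mem_gr.mp hx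
    rw [Submodule.mem_bot, Ideal.Quotient.eq_zero_iff_mem]
    exact h2 n hn f hf
  have hgood : ∀ i K, 1 ≤ K → 2 * i + K ≤ d → Good Δ α d i K →
      InjectiveAt (CSLef.Jid Δ (CSLef.rowN A) d) (∑ v, X v) i K ∧
      SurjectiveAt (CSLef.Jid Δ (CSLef.rowN A) d) (∑ v, X v) (d - i - K) K := by
    intro i K hK hi hcross
    have hmem : (i, K) ∈ (Finset.range (d + 1) ×ˢ Finset.range (d + 1)).filter
        (fun q => 1 ≤ q.2 ∧ 2 * q.1 + q.2 ≤ d ∧ Good Δ α d q.1 q.2) := by
      rw [Finset.mem_filter, Finset.mem_product, Finset.mem_range, Finset.mem_range]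
      exact ⟨⟨by simp only; omega, by simp only; omega⟩, hK, hi, hcross⟩
    obtain ⟨h3, h4⟩ := h1 (i, K) hmem
    exact ⟨h3, h4 (d - i - K) (by simp only; omega)⟩
  -- a pair and its dual pair
  have hpair : ∀ i K, 1 ≤ K →
      (∀ j, 2 * j + K ≤ d → (2 * i + K ≤ d → j = i) → (d ≤ 2 * i + K → j + i + K = d) →
        Good Δ α d j K) →
      InjectiveAt (CSLef.Jid Δ (CSLef.rowN A) d) (∑ v, X v) i K ∨
      SurjectiveAt (CSLef.Jid Δ (CSLef.rowN A) d) (∑ v, X v) i K := by
    intro i K hK hj
    rcases Nat.lt_or_ge d (2 * i + K) with h | h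
    · right
      rcases Nat.lt_or_ge d (i + K) with h' | h'
      · intro y hy
        rw [hzero (i + K) h', Submodule.mem_bot] at hy
        exact ⟨0, Submodule.zero_mem _, by rw [mul_zero, hy]⟩
      · have h5 := (hgood (d - i - K) K hK (by omega)
          (hj (d - i - K) (by omega) (by omega) (by omega))).2
        have h6 : d - (d - i - K) - K = i := by omega
        rwa [h6] at h5
    · exact Or.inl (hgood i K hK h (hj i h (fun _ => rfl) (by omega))).1
  refine ⟨hzero, hgood, ?_, ?_, ?_⟩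
  · intro hcase i
    refine hpair i 1 le_rfl (fun j hj _ _ => ?_)
    have hacyc : ∀ m, 3 ≤ m → m ≤ d + 2 - 2 * j → CrossAcyclic Δ α m → Good Δ α d j 1 := by
      intro m hm3 hm hac
      rcases Nat.lt_or_ge m (d + 2 - 2 * j) with h | h
      · right
        right
        left
        rw [show d + 3 - 2 * j - 1 = d + 2 - 2 * j by omega]
        exact crossFree_of_acyclic hΔ.down hα hvp (by omega) h hac
      · refine Or.inr (Or.inr (Or.inr ⟨rfl, ?_⟩))
        rwa [show d + 2 - 2 * j = m by omega]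
    rcases hcase with h | ⟨_, h⟩ | ⟨he, h⟩
    · exact Or.inr (Or.inl (by omega))
    · exact hacyc 3 (le_refl _) (by omega) h
    · obtain ⟨r, hr⟩ := he
      exact hacyc 4 (by omega) (by omega) h
  · intro hcase i K hK
    refine hpair i K hK (fun j hj _ _ => ?_)
    rcases hcase with h | h
    · by_cases hj0 : j = 0
      · exact Or.inl hj0
      · exact Or.inr (Or.inl (by omega))
    · exact Or.inr (Or.inr (Or.inl (crossFree_mono hΔ.down hα hvp (by omega) h)))
  · intro h i K hK hne2
    refine hpair i K hK (fun j hj hj1 hj2 => ?_)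
    refine Or.inr (Or.inr (Or.inl (crossFree_mono hΔ.down hα hvp ?_ h)))
    rcases Nat.lt_or_ge (2 * i + K) d with h7 | h7
    · have := hj1 h7.le
      omega
    · have := hj2 h7
      omega

end Pool.Agent.Results.MP_38c61c_al.LowDimensionWLP
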