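import Mathlib
import Pool.Agent.Work.MP_38c61c_al.Transfer
import Pool.Agent.Work.MP_38c61c_al.Quad.QGeneric
import Pool.Agent.Work.MP_38c61c_al.Quad.Shatter

/-!
Strong Lefschetz property, with respect to the sum of the variables and for generic
antisymmetric linear forms, of the centrally symmetric `ZMod 2`-homology spheres without
invariant octahedron, and more generally of those that satisfy a condition on the flips of
their faces with `⌊d / 2⌋ + 1` vertices.
-/

namespace Pool.Agent.Results.MP_38c61c_al.OctahedronFreeSLP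

open MvPolynomial

variable {V : Type} [Fintype V] [DecidableEq V]

/-- The value at `H` of the boundary modulo 2 of the chain `c` of faces of `Δ`:
the sum of the values of `c` over all faces `H ∪ {v}` of `Δ` with `v ∉ H`. -/
def bdry (Δ : Finset (Finset V)) (c : Finset V → ZMod 2) (H : Finset V) : ZMod 2 :=
  ∑ v ∈ Finset.univ.filter (fun v => v ∉ H ∧ insert v H ∈ Δ), c (insert v H)

/-- `Δ` is a simplicial complex on the vertex set `V`, with faces of at most `d` vertices, such
that the link of each face `G` (the empty one included) has the reduced homology modulo 2 of a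
sphere of dimension `d - 1 - |G|`. (The faces of the link of `G` are here written as the faces
of `Δ` that contain `G`.) -/
structure HomologySphere (Δ : Finset (Finset V)) (d : ℕ) : Prop where
  empty_mem : ∅ ∈ Δ
  down : ∀ F ∈ Δ, ∀ G, G ⊆ F → G ∈ Δ
  card_le : ∀ F ∈ Δ, F.card ≤ d
  acyclic : ∀ G ∈ Δ, ∀ r, G.card ≤ r → r < d → ∀ c : Finset V → ZMod 2,
    (∀ H ∈ Δ, G ⊆ H → H.card + 1 = r → bdry Δ c H = 0) →
    ∃ b : Finset V → ZMod 2, ∀ F ∈ Δ, G ⊆ F → F.card = r → bdry Δ b F = c F
  top : ∀ G ∈ Δ, ∀ c : Finset V → ZMod 2,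
    (∀ H ∈ Δ, G ⊆ H → H.card + 1 = d → bdry Δ c H = 0) ↔
    ∃ z, ∀ F ∈ Δ, G ⊆ F → F.card = d → c F = z

/-- `α` is a fixed-point-free involution of the vertex set that maps `Δ` to itself and has no
vertex in a common face with its image. -/
structure CentrallySymmetric (Δ : Finset (Finset V)) (α : Equiv.Perm V) : Prop where
  invol : ∀ v, α (α v) = v
  fpf : ∀ v, α v ≠ v
  map_mem : ∀ F ∈ Δ, F.image α ∈ Δ
  no_pair : ∀ F ∈ Δ, ∀ v ∈ F, α v ∉ F

/-- The flip of `G` along its subset `T`: the vertices in `T` are replaced by their images. -/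
def flip (α : Equiv.Perm V) (G T : Finset V) : Finset V := (G \ T) ∪ T.image α

/-- `Δ` contains an invariant octahedron: there is a face `G` with exactly three vertices such
that all eight flips of `G` are faces, so that `Δ` contains all eight triangles of the octahedron
on the three pairs of antipodal vertices `v`, `α v` with `v ∈ G`. -/
def HasInvariantOctahedron (Δ : Finset (Finset V)) (α : Equiv.Perm V) : Prop :=
  ∃ G ∈ Δ, G.card = 3 ∧ ∀ T ⊆ G, flip α G T ∈ Δ

/-- For each face `G` with exactly `⌊d / 2⌋ + 1` vertices, no set `S` of three vertices of `G` is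
shattered by the sets `T ⊆ G` whose flip is a face: for some `Q ⊆ S`, no flip of `G` along a
set `T` with `T ∩ S = Q` is a face. -/
def NoShatteredTriple (Δ : Finset (Finset V)) (α : Equiv.Perm V) (d : ℕ) : Prop :=
  ∀ G ∈ Δ, G.card = d / 2 + 1 → ∀ S ⊆ G, S.card = 3 →
    ∃ Q ⊆ S, ∀ T ⊆ G, T ∩ S = Q → flip α G T ∉ Δ

/-- For each face `G` with exactly `⌊d / 2⌋ + 1` vertices, the polynomials of degree at most two
over the field with two elements interpolate on the sets `T ⊆ G` whose flip is a face: there is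
no nonempty set `𝓣` of such sets in which each `P ⊆ G` with at most two elements is contained in
an even number of members. -/
def QuadraticFlips (Δ : Finset (Finset V)) (α : Equiv.Perm V) (d : ℕ) : Prop :=
  ∀ G ∈ Δ, G.card = d / 2 + 1 → ∀ 𝓣 : Finset (Finset V),
    (∀ T ∈ 𝓣, T ⊆ G ∧ flip α G T ∈ Δ) →
    (∀ P ⊆ G, P.card ≤ 2 → Even (𝓣.filter (fun T => P ⊆ T)).card) → 𝓣 = ∅

variable {k : Type*} [Field k]

/-- The sum of the Stanley-Reisner ideal of `Δ` and of the ideal generated by the linear forms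
`θ_l`, the sum over `v` of `A l v` times the variable `x_v`. -/
noncomputable def quotIdeal {d : ℕ} (Δ : Finset (Finset V)) (A : Fin d → V → k) :
    Ideal (MvPolynomial V k) :=
  Ideal.span {f | ∃ G : Finset V, G ∉ Δ ∧ f = ∏ v ∈ G, X v} ⊔
    Ideal.span (Set.range (fun l : Fin d => ∑ v, C (A l v) * X v))

/-- The homogeneous part of degree `n` of the quotient by the ideal `J`. -/
noncomputable def piece (J : Ideal (MvPolynomial V k)) (n : ℕ) :
    Submodule k (MvPolynomial V k ⧸ J) :=
  (homogeneousSubmodule V k n).map (Ideal.Quotient.mkₐ k J).toLinearMap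

/-- The quotient by `J` has the strong Lefschetz property with respect to `w`. -/
def HasSLP (J : Ideal (MvPolynomial V k)) (w : MvPolynomial V k) : Prop :=
  ∀ i e : ℕ, 1 ≤ e →
    (∀ x ∈ piece J i, Ideal.Quotient.mk J w ^ e * x = 0 → x = 0) ∨
    (∀ y ∈ piece J (i + e), ∃ x ∈ piece J i, Ideal.Quotient.mk J w ^ e * x = y)

omit [Fintype V] in
theorem exists_half {Δ : Finset (Finset V)} {α : Equiv.Perm V} [Finite V]
    (hα : CentrallySymmetric Δ α) : ∃ VP : Finset V, ∀ v, v ∈ VP ↔ α v ∉ VP := by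
  classical
  have : Fintype V := Fintype.ofFinite V
  let r : V → V → Prop := WellOrderingRel
  refine ⟨Finset.univ.filter (fun v => r v (α v)), ?_⟩
  intro v
  simp only [Finset.mem_filter, Finset.mem_univ, true_and]
  rw [hα.invol]
  constructor
  · intro h h'
    exact asymm (r := r) h h'
  · intro h
    rcases trichotomous_of r v (α v) with h1 | h1 | h1
    · exact h1
    · exact absurd h1.symm (hα.fpf v)
    · exact absurd h1 h

theorem quotIdeal_eq {d : ℕ} (Δ : Finset (Finset V)) (A : Fin d → V → k) :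
    quotIdeal Δ A = CSLef.Jid Δ (CSLef.rowN A) d := by
  unfold quotIdeal CSLef.Jid CSLef.srIdeal
  congr 2
  ext f
  constructor
  · rintro ⟨l, rfl⟩
    refine ⟨l, l.2, ?_⟩
    unfold CSLef.lin CSLef.rowN
    simp only [dif_pos l.2]
  · rintro ⟨l, hl, rfl⟩
    refine ⟨⟨l, hl⟩, ?_⟩
    unfold CSLef.lin CSLef.rowN
    simp only [dif_pos hl]

omit [Fintype V] in
theorem noShatteredTriple_of_noOctahedron {Δ : Finset (Finset V)} {α : Equiv.Perm V} {d : ℕ}
    (hdown : ∀ F ∈ Δ, ∀ G, G ⊆ F → G ∈ Δ) (h : ¬ HasInvariantOctahedron Δ α) :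
    NoShatteredTriple Δ α d := by
  intro G hG _ S hS hSc
  by_contra hcon
  push Not at hcon
  apply h
  refine ⟨S, hdown G hG S hS, hSc, ?_⟩
  intro Q hQ
  obtain ⟨T, hT, hTS, hTΔ⟩ := hcon Q hQ
  apply hdown _ hTΔ
  intro x hx
  unfold flip at hx ⊢
  rw [Finset.mem_union] at hx ⊢
  rcases hx with hx | hx
  · left
    rw [Finset.mem_sdiff] at hx ⊢
    refine ⟨hS hx.1, fun h' => hx.2 ?_⟩
    rw [← hTS, Finset.mem_inter]
    exact ⟨h', hx.1⟩
  · right
    obtain ⟨y, hy, rfl⟩ := Finset.mem_image.mp hx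
    apply Finset.mem_image_of_mem
    rw [← hTS, Finset.mem_inter] at hy
    exact hy.1

omit [Fintype V] in
theorem quadraticFlips_of_noShatteredTriple {Δ : Finset (Finset V)} {α : Equiv.Perm V} {d : ℕ}
    (h : NoShatteredTriple Δ α d) : QuadraticFlips Δ α d := by
  intro G hG hc 𝓣 h𝓣 heven
  by_contra hne
  obtain ⟨S, hS, hSc, hSQ⟩ := CSLef.shatter_of_even G 2 𝓣 (fun T hT => (h𝓣 T hT).1)
    (Finset.nonempty_iff_ne_empty.mpr hne) heven
  obtain ⟨Q, hQ, hQT⟩ := h G hG hc S hS hSc
  obtain ⟨T, hT, hTS⟩ := hSQ Q hQ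
  exact hQT T (h𝓣 T hT).1 hTS (h𝓣 T hT).2

/-- Let `Δ` be a centrally symmetric `(d - 1)`-dimensional homology sphere modulo 2 that contains
no invariant octahedron, or more generally satisfies `NoShatteredTriple` or, more generally,
`QuadraticFlips`. Then over every field of characteristic zero, for generic antisymmetric linear
forms `θ_1, …, θ_d`, the quotient of the Stanley-Reisner ring is zero in degrees above `d` and has
the strong Lefschetz property with respect to the sum of the variables. -/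
theorem result {d : ℕ} (hd : 1 ≤ d) {Δ : Finset (Finset V)} {α : Equiv.Perm V}
    (hΔ : HomologySphere Δ d) (hα : CentrallySymmetric Δ α)
    (hflip : ¬ HasInvariantOctahedron Δ α ∨ NoShatteredTriple Δ α d ∨ QuadraticFlips Δ α d)
    [CharZero k] :
    ∃ Φ : MvPolynomial (Fin d × V) k,
      (∃ A : Fin d → V → k, (∀ l v, A l (α v) = - A l v) ∧
        eval (fun q : Fin d × V => A q.1 q.2) Φ ≠ 0) ∧
      ∀ A : Fin d → V → k, (∀ l v, A l (α v) = - A l v) →
        eval (fun q : Fin d × V => A q.1 q.2) Φ ≠ 0 →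
        (∀ n, d < n → piece (quotIdeal Δ A) n = ⊥) ∧
        HasSLP (quotIdeal Δ A) (∑ v, X v) := by
  have hΔ' : CSLef.IsHomSphere Δ d :=
    ⟨hΔ.empty_mem, hΔ.down, hΔ.card_le, hΔ.acyclic, hΔ.top⟩
  have hα' : CSLef.IsCS Δ α := ⟨hα.invol, hα.fpf, hα.map_mem, hα.no_pair⟩
  have hquad : QuadraticFlips Δ α d := by
    rcases hflip with h | h | h
    · exact quadraticFlips_of_noShatteredTriple (noShatteredTriple_of_noOctahedron hΔ.down h)
    · exact quadraticFlips_of_noShatteredTriple h
    · exact h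
  have hflip' : CSLef.CondQuad Δ α d := by
    intro G hG hc 𝓣 h1 h2 h3 h4
    apply hquad G hG hc 𝓣 h1
    intro P hP hPc
    have hcases : P.card = 0 ∨ P.card = 1 ∨ P.card = 2 := by omega
    rcases hcases with h0 | h0 | h0
    · rw [Finset.card_eq_zero] at h0
      subst h0
      simpa using h2
    · obtain ⟨u, rfl⟩ := Finset.card_eq_one.mp h0
      simp only [Finset.singleton_subset_iff] at hP ⊢
      exact h3 u hP
    · obtain ⟨u, u', _, rfl⟩ := Finset.card_eq_two.mp h0
      simp only [Finset.insert_subset_iff, Finset.singleton_subset_iff] at hP ⊢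
      exact h4 u hP.1 u' hP.2
  obtain ⟨VP, hvp⟩ := exists_half hα
  obtain ⟨g, hg, H⟩ := CSLef.generic_bij_q hΔ' hα' hvp hd hflip'
  obtain ⟨Φ, hΦ1, hΦ2⟩ := CSLef.transfer (k := k) hΔ' hα' hvp hg (fun ψ hψ => H ψ hψ)
  refine ⟨Φ, hΦ1, ?_⟩
  intro A hA hne
  obtain ⟨h1, h2⟩ := hΦ2 A hA hne
  rw [quotIdeal_eq]
  refine ⟨?_, fun i e _ => h1 i e⟩
  intro n hn
  rw [eq_bot_iff]
  intro x hx
  obtain ⟨f, hf, rfl⟩ := CSLef.mem_gr.mp hx
  rw [Submodule.mem_bot, Ideal.Quotient.eq_zero_iff_mem]
  exact h2 n hn f hf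

end Pool.Agent.Results.MP_38c61c_al.OctahedronFreeSLP
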